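import Pool.Agent.Helper25.WB.Cv
import Pool.Agent.Helper83.WB.En

/-!
# Project DV, UP half, piece (C), user form: the weight of two pins and blocks
-/

open Finset Filter Topology MeasureTheory

namespace DV.WB

open RP4 (V Adj BdryPar Om dom avg mu Loc Deloc dist1 cnt mass clm Conn cell)
open GF (Pl Cc)
open GF.Lat (Xd win)
open SW (iw)

/-- the covariance of the field of `f` and of the field of a function supported near `z` is small, for all weights of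
two pins `y₁`, `y₂` and blocks, if the fourth moment of the second field is bounded -/
theorem one_small (hd : Deloc) (hF : FlatC) (hZC : ZoneC) {y₁ y₂ : Pl} {r s : ℝ} (hr : 0 < r) (hrs : r < s)
    (h12 : 2 * s < dist y₁ y₂) {K : Set Pl} (hK : IsCompact K) {R : ℝ} (hR : 0 < R)
    (hKy : ∀ z ∈ K, s + R < dist z y₁) {f : Pl → ℝ} (hf : Cc f)
    (hfK : ∀ z ∈ K, ∀ x, f x ≠ 0 → 2 * R ≤ dist x z) {C₃ e : ℝ} (hC₃ : 0 ≤ C₃) (he : 0 < e) :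
    ∃ ρ₀ > 0, ∀ ρ, 0 < ρ → ρ ≤ ρ₀ → ∀ᶠ δ in 𝓝[>] (0 : ℝ), ∀ z ∈ K, ∀ Z : Finset (Pl × ℝ × ℝ),
      (∀ q ∈ Z, q.2.1 + δ < q.2.2) → (∀ q ∈ Z, s + q.2.2 ≤ dist q.1 y₁ ∧ s + q.2.2 ≤ dist q.1 y₂) →
      0 < MR (iw (WE y₁ y₂ r s Z δ)) → ∀ χ : Pl → ℝ, Cc χ → (∀ x, χ x ≠ 0 → dist x z < 8 * ρ) →
      qt (fun d => iw (WE y₁ y₂ r s Z d)) (fun d g => Xd d χ g ^ 4) δ ≤ C₃ * ρ ^ 8 →
      qt (fun d => iw (WE y₁ y₂ r s Z d)) (fun d g => Xd d f g * Xd d χ g) δ ≤ e * ρ ^ 2 := by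
  classical
  obtain ⟨Cf, hCf, hmom⟩ := bar_mom hd hF hZC y₁ y₂ hr hrs h12 hf 2
  obtain ⟨ρ₀, hρ₀, hcov⟩ := cov_small hd hF hZC y₁ hr hrs hK hR hKy hf hfK hCf.le hC₃ he
  have hev : ∀ c : ℝ, 0 < c → ∀ᶠ δ in 𝓝[>] (0 : ℝ), δ < c := fun c hc =>
    nhdsWithin_le_nhds (Iio_mem_nhds hc)
  refine ⟨ρ₀, hρ₀, fun ρ hρ hρρ => ?_⟩
  filter_upwards [hmom, hcov ρ hρ hρρ, self_mem_nhdsWithin, hev (s - r) (by linarith)] with δ h1 h2 hδ d1 z hz Z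
    hq hoff hpos χ hχ hχz h4
  have hδ0 : (0 : ℝ) < δ := hδ
  have hws : ∀ v ∈ wsit Z δ, s ≤ dist (pt δ v) y₁ ∧ s ≤ dist (pt δ v) y₂ := by
    intro v hv
    obtain ⟨q, hq', hvq⟩ := (mem_wsit hδ0).1 hv
    obtain ⟨a1, a2⟩ := hoff q hq'
    have b1 := dist_triangle q.1 (pt δ v) y₁
    have b2 := dist_triangle q.1 (pt δ v) y₂
    rw [dist_comm q.1 (pt δ v)] at b1 b2
    constructor <;> linarith
  have h5 := h1 (wsit Z δ) (BlkF Z δ) hws (dec_blkF Z δ) fun g g' hg => blkF_loc hδ0 hq hg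
  have hE : Dec fun g => Bk 0 δ y₂ r s g ∧ BlkF Z δ g := dec_and (bk_dec _ _ _ _) (dec_blkF Z δ)
  have h6 := h2 z hz (Is δ y₂ s ∪ wsit Z δ) (fun g => Bk 0 δ y₂ r s g ∧ BlkF Z δ g) (fun v hv => by
      rcases Finset.mem_union.1 hv with hv | hv
      · rw [mem_Is hδ0] at hv
        have b1 := dist_triangle y₁ (pt δ v) y₂
        rw [dist_comm y₁ (pt δ v)] at b1
        linarith
      · exact (hws v hv).1) hE (fun g g' hg => by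
      refine and_congr (bk_loc hδ0 (by linarith) fun v hv => ?_) (blkF_loc hδ0 hq fun v hv => ?_)
      · exact hg v (Finset.mem_union_left _ ((mem_Is hδ0).2 hv.le))
      · exact hg v (Finset.mem_union_right _ hv)) χ hχ hχz
  have e0 : (fun g => Bk 0 δ y₁ r s g ∧ (Bk 0 δ y₂ r s g ∧ BlkF Z δ g)) = WE y₁ y₂ r s Z δ := rfl
  have e1 : Mp (WE y₁ y₂ r s Z δ) = MR (iw (WE y₁ y₂ r s Z δ)) := rfl
  have e2 : ∀ F : (V → ℤ) → ℝ, Mr (fun g => ic (WE y₁ y₂ r s Z δ) g * F g) =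
      MR (fun g => F g * iw (WE y₁ y₂ r s Z δ) g) := by
    intro F
    have : (fun g => ic (WE y₁ y₂ r s Z δ) g * F g) = fun g => F g * iw (WE y₁ y₂ r s Z δ) g := by
      funext g
      rw [mul_comm]
      rfl
    rw [this]
    rfl
  rw [e0, e1, e2 fun g => Xd δ f g ^ 4, e2 fun g => Xd δ χ g ^ 4,
    e2 fun g => Xd δ f g * Xd δ χ g] at h6
  have h7 : MR (fun g => Xd δ f g ^ (2 * 2) * iw (WE y₁ y₂ r s Z δ) g) ≤ Cf * MR (iw (WE y₁ y₂ r s Z δ)) := by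
    rw [← e2 fun g => Xd δ f g ^ (2 * 2)]
    exact h5
  unfold qt at h4 ⊢
  rw [div_le_iff₀ hpos] at h4 ⊢
  exact h6 h7 h4

end DV.WB
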