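import Pool.Agent.Helper25.WB.Ra

/-!
# Project DV, UP half, piece (C): the covariance of a field far away and of a field near the block is small
-/

open Finset Filter Topology MeasureTheory

namespace DV.WB

open RP4 (V Adj BdryPar Om dom avg mu Loc Deloc dist1 cnt mass clm Conn cell)
open GF (Pl Cc)
open GF.Lat (Xd win)

/-- a cell with mass meets the support -/
lemma mass_ne {δ : ℝ} {f : Pl → ℝ} {x : V} (h : mass δ f x ≠ 0) : ∃ y, f y ≠ 0 ∧ dist (pt δ x) y ≤ δ := by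
  by_contra hcon
  push Not at hcon
  refine h ?_
  unfold RP4.mass
  refine setIntegral_eq_zero_of_forall_eq_zero fun y hy => ?_
  by_contra hy0
  have h1 := hcon y hy0
  obtain ⟨⟨a1, a2⟩, a3, a4⟩ := hy
  have hδ : 0 ≤ δ := by
    by_contra hn
    push Not at hn
    nlinarith
  have h2 : dist (pt δ x) y ≤ δ := by
    unfold pt
    rw [Prod.dist_eq, max_le_iff, Real.dist_eq, Real.dist_eq, abs_le, abs_le]
    simp only
    refine ⟨⟨?_, ?_⟩, ?_, ?_⟩ <;> nlinarith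
  linarith

/-- **(C)** -/
theorem cov_small (hd : Deloc) (hF : FlatC) (hZ : ZoneC) (y : Pl) {r s : ℝ} (hr : 0 < r) (hrs : r < s)
    {K : Set Pl} (hK : IsCompact K) {R : ℝ} (hR : 0 < R) (hKy : ∀ z ∈ K, s + R < dist z y) {f : Pl → ℝ}
    (hf : Cc f) (hfK : ∀ z ∈ K, ∀ x, f x ≠ 0 → 2 * R ≤ dist x z) {Cf C₃ e : ℝ} (hCf : 0 ≤ Cf) (hC₃ : 0 ≤ C₃)
    (he : 0 < e) : ∃ ρ₀ > 0, ∀ ρ, 0 < ρ → ρ ≤ ρ₀ → ∀ᶠ δ in 𝓝[>] (0 : ℝ), ∀ z ∈ K,
      ∀ (S : Finset V) (E : (V → ℤ) → Prop), (∀ v ∈ S, s ≤ dist (pt δ v) y) → Dec E →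
      (∀ g g' : V → ℤ, (∀ v ∈ S, g v = g' v) → (E g ↔ E g')) → ∀ χ : Pl → ℝ, Cc χ →
      (∀ x, χ x ≠ 0 → dist x z < 8 * ρ) →
      Mr (fun g => ic (fun g => Bk 0 δ y r s g ∧ E g) g * Xd δ f g ^ 4) ≤
        Cf * Mp (fun g => Bk 0 δ y r s g ∧ E g) →
      Mr (fun g => ic (fun g => Bk 0 δ y r s g ∧ E g) g * Xd δ χ g ^ 4) ≤
        C₃ * ρ ^ 8 * Mp (fun g => Bk 0 δ y r s g ∧ E g) →
      Mr (fun g => ic (fun g => Bk 0 δ y r s g ∧ E g) g * (Xd δ f g * Xd δ χ g)) ≤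
        e * ρ ^ 2 * Mp (fun g => Bk 0 δ y r s g ∧ E g) := by
  classical
  obtain ⟨Rf, hRf, hfR⟩ := GF.Lat.cc_box hf
  set c : ℝ := Real.sqrt (Cf * C₃) with hc
  have hc0 : 0 ≤ c := Real.sqrt_nonneg _
  obtain ⟨t₀, ht₀, hrare⟩ := rare_unif hd hF hZ y hr hrs hK hR hKy (ε := e ^ 2 / (c + 1)) (by positivity)
  refine ⟨min (t₀ / 9) (R / 18), by positivity, fun ρ hρ hρρ => ?_⟩
  have hρ1 : 9 * ρ ≤ t₀ := by
    have := hρρ.trans (min_le_left _ _)
    linarith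
  have hρ2 : 9 * ρ ≤ R / 2 := by
    have := hρρ.trans (min_le_right _ _)
    linarith
  have hev : ∀ c : ℝ, 0 < c → ∀ᶠ δ in 𝓝[>] (0 : ℝ), δ < c := fun c hc =>
    nhdsWithin_le_nhds (Iio_mem_nhds hc)
  filter_upwards [hrare (9 * ρ) (by positivity) hρ1, self_mem_nhdsWithin, hev r hr, hev (s - r) (by linarith),
    hev (R / 2) (by positivity), hev ρ hρ] with δ h1 hδ d1 d2 d3 d4 z hz S E hS hE hEl χ hχ hχz h4f h4χ
  have hδ0 : (0 : ℝ) < δ := hδ
  obtain ⟨Rχ, hRχ, hχR⟩ := GF.Lat.cc_box hχ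
  set t : Finset V := win δ Rf ∪ win δ Rχ with ht
  have hXf : ∀ g, Xd δ f g = ∑ x ∈ t, mass δ f x * (g x : ℝ) := fun g =>
    GF.Lat.Xd_eq hδ0 hRf.le hfR Finset.subset_union_left g
  have hXχ : ∀ g, Xd δ χ g = ∑ x ∈ t, mass δ χ x * (g x : ℝ) := fun g =>
    GF.Lat.Xd_eq hδ0 hRχ.le hχR Finset.subset_union_right g
  set N : Finset V := t ∪ Is δ y s ∪ S ∪ Is δ z R with hN
  have hN0 : t ⊆ N := fun v hv => by
    simp only [hN, Finset.mem_union]
    tauto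
  have hN1 : Is δ y s ⊆ N := fun v hv => by
    simp only [hN, Finset.mem_union]
    tauto
  have hN2 : S ⊆ N := fun v hv => by
    simp only [hN, Finset.mem_union]
    tauto
  have hN3 : Is δ z R ⊆ N := fun v hv => by
    simp only [hN, Finset.mem_union]
    tauto
  set EE : (V → ℤ) → Prop := fun g => Bk 0 δ y r s g ∧ E g with hEE
  set B : (V → ℤ) → Prop := fun g => Bk 0 δ z (9 * ρ) R g with hB
  have hBl : ∀ g g' : V → ℤ, (∀ v ∈ N, g v = g' v) → (B g ↔ B g') := fun g g' h =>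
    bk_loc hδ0 (by linarith) fun v hv => h v (hN3 ((mem_Is hδ0).2 hv.le))
  have hEN : ∀ g g' : V → ℤ, (∀ v ∈ N, g v = g' v) → (E g ↔ E g') := fun g g' h =>
    hEl g g' fun v hv => h v (hN2 hv)
  have hP : PR N (ic EE) := PR_pin hδ0 d1.le (by linarith) (S := N) hEN hN1 (Finset.Subset.refl _)
  have hA : ∀ g g' : V → ℤ, (∀ x ∈ N, g x = g' x) → Xd δ f g = Xd δ f g' := fun g g' h => by
    rw [hXf, hXf]
    exact Finset.sum_congr rfl fun x hx => by rw [h x (hN0 hx)]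
  have hX : ∀ g g' : V → ℤ, (∀ x ∈ N, g x = g' x) → Xd δ χ g = Xd δ χ g' := fun g g' h => by
    rw [hXχ, hXχ]
    exact Finset.sum_congr rfl fun x hx => by rw [h x (hN0 hx)]
  -- the part on the block vanishes
  have hzero : Mr (fun g => ic EE g * (Xd δ f g * Xd δ χ g * ic B g)) = 0 := by
    have e1 : (fun g => ic EE g * (Xd δ f g * Xd δ χ g * ic B g)) = fun g =>
        ic (fun g => Bk 0 δ y r s g ∧ (E g ∧ B g)) g *
          ((∑ x ∈ t, mass δ f x * (g x : ℝ)) * ∑ x ∈ t, mass δ χ x * (g x : ℝ)) := by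
      funext g
      have e2 : ic (fun g => Bk 0 δ y r s g ∧ (E g ∧ B g)) g = ic EE g * ic B g := by
        rw [← ic_and]
        exact ic_congr (by simp only [hEE]; tauto)
      rw [e2, hXf, hXχ]
      ring
    rw [e1]
    refine Mr_sep hd (s := N) hN0 (PR_pin hδ0 d1.le (by linarith) (S := N)
      (fun g g' h => and_congr (hEN g g' h) (hBl g g' h)) hN1 (Finset.Subset.refl _)) (fun g => ?_) ?_
    · exact and_congr ((bk_dec _ _ _ _).abs g) (and_congr (hE.abs g) ((bk_dec _ _ _ _).abs g))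
    · intro g hg u hu hfu v hv hχv hc
      obtain ⟨a, ha, had⟩ := mass_ne hfu
      obtain ⟨b, hb, hbd⟩ := mass_ne hχv
      have h5 : Bk 0 δ z (9 * ρ) R g := hg.2.2
      rw [bk_zero] at h5
      refine h5 v (sub_nb _ ?_) u (sub_nb _ ?_) (SW.conn_con hc).symm'
      · show dist (pt δ v) z ≤ 9 * ρ
        have h6 := hχz b hb
        have h7 := dist_triangle (pt δ v) b z
        linarith
      · show R ≤ dist (pt δ u) z
        have h6 := hfK z hz a ha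
        have h7 := dist_triangle a (pt δ u) z
        rw [dist_comm a (pt δ u)] at h7
        linarith
  -- the rest
  have hm : 0 ≤ Mr (ic EE) := Mr_nonneg hd hP fun g => ic_nonneg _ _
  have hQ : Mr (fun g => ic EE g * ic (fun g => ¬ B g) g) ≤ e ^ 2 / (c + 1) * Mr (ic EE) := by
    have h5 := h1 z hz S E hS hE hEl
    have e1 : Mp (fun g => Bk 0 δ y r s g ∧ E g ∧ ¬ Bk 0 δ z (9 * ρ) R g) =
        Mr (fun g => ic EE g * ic (fun g => ¬ B g) g) := by
      unfold Mp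
      congr 1
      funext g
      rw [← ic_and]
      exact ic_congr (by simp only [hEE, hB]; tauto)
    rw [e1] at h5
    exact h5
  have hmain := Mr_hoelder hd hP hA hX (Q := fun g => ¬ B g) (fun g g' h => not_congr (hBl g g' h)) hCf
    (b := C₃ * ρ ^ 8) (by positivity) (q := e ^ 2 / (c + 1)) (by positivity) h4f h4χ hQ
  have hroot : Real.sqrt (Real.sqrt (Cf * (C₃ * ρ ^ 8)) * (e ^ 2 / (c + 1))) ≤ e * ρ ^ 2 := by
    have e1 : Real.sqrt (Cf * (C₃ * ρ ^ 8)) = c * ρ ^ 4 := by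
      rw [show Cf * (C₃ * ρ ^ 8) = (Cf * C₃) * (ρ ^ 4) ^ 2 by ring, Real.sqrt_mul (by positivity),
        Real.sqrt_sq (by positivity)]
    rw [e1]
    refine Real.sqrt_le_iff.2 ⟨by positivity, ?_⟩
    rw [mul_div_assoc', div_le_iff₀ (by positivity)]
    have h5 : 0 ≤ ρ ^ 4 * e ^ 2 := by positivity
    nlinarith
  have hsplit : Mr (fun g => ic EE g * (Xd δ f g * Xd δ χ g)) =
      Mr (fun g => ic EE g * (Xd δ f g * Xd δ χ g * ic B g)) +
        Mr (fun g => ic EE g * (Xd δ f g * Xd δ χ g * ic (fun g => ¬ B g) g)) := by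
    rw [← Mr_add hd (s := N) (hP.mul fun g g' h => by rw [hA g g' h, hX g g' h, ic_congr (hBl g g' h)])
      (hP.mul fun g g' h => by
        rw [hA g g' h, hX g g' h, ic_congr (E := fun g => ¬ B g) (E' := fun g => ¬ B g) (not_congr (hBl g g' h))])]
    congr 1
    funext g
    by_cases h5 : B g
    · rw [ic_pos (E := B) h5, ic_neg (E := fun g => ¬ B g) (not_not.2 h5)]
      ring
    · rw [ic_neg (E := B) h5, ic_pos (E := fun g => ¬ B g) h5]
      ring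
  rw [hsplit, hzero, zero_add]
  exact hmain.trans (mul_le_mul_of_nonneg_right hroot hm)

end DV.WB
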