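import Pool.Agent.Helper25.WD.W
import Pool.Agent.Helper33.DV.Ev4
import Pool.Agent.Helper41.DV.E3

/-!
# Project DV, UP half: from the environments of the blocks to the wall

The functionals `η ↦ L (X_f X_η)` of the limit states of the weights are positive and harmonic off the blocks and the support of `f`;
`wild_wall_on` gives the bound near the boundary.
-/

open Finset Filter Topology MeasureTheory

namespace DV.WB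

open RP4 (V Adj BdryPar Om dom avg mu Loc Deloc dist1 cnt mass)
open GF (Pl Cc Tst lap)
open GF.Lat (Xd win Ix XX)
open DV.WD (PF LeO Hm eu Sh wild_wall_on)

variable {U₀ : Ultrafilter ℝ} {E : ℝ → (V → ℤ) → ℝ} {f : Pl → ℝ}

/-- the functional of a weight -/
noncomputable def TT (hd : Deloc) (h : WDat (U₀ : Filter ℝ) E) (U : Ultrafilter (ℝ × Finset V))
    (hU : (U : Filter (ℝ × Finset V)) ≤ (U₀ : Filter ℝ).curry dom) (f η : Pl → ℝ) : ℝ :=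
  (h.st hd U hU).L (fun i => XX f i * XX η i)

lemma TT_ok (hd : Deloc) (hU₀ : (U₀ : Filter ℝ) ≤ 𝓝[>] 0) (h : WDat (U₀ : Filter ℝ) E)
    (U : Ultrafilter (ℝ × Finset V)) (hU : (U : Filter (ℝ × Finset V)) ≤ (U₀ : Filter ℝ).curry dom)
    (hf : Cc f) {η : Pl → ℝ} (hη : Cc η) : (h.st hd U hU).Ok (fun i => XX f i * XX η i) :=
  (h.st hd U hU).ok_mul _ _ (h.okX hd hU₀ hU hf) (h.okX hd hU₀ hU hη)

lemma TT_lim (hd : Deloc) (hU₀ : (U₀ : Filter ℝ) ≤ 𝓝[>] 0) (h : WDat (U₀ : Filter ℝ) E)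
    (U : Ultrafilter (ℝ × Finset V)) (hU : (U : Filter (ℝ × Finset V)) ≤ (U₀ : Filter ℝ).curry dom)
    (hf : Cc f) {η : Pl → ℝ} (hη : Cc η) :
    Tendsto (fun δ => qt E (fun δ h => Xd δ f h * Xd δ η h) δ) U₀ (𝓝 (TT hd h U hU f η)) := by
  have h1 : RepW (U₀ : Filter ℝ) (fun i => XX f i) (fun δ h => Xd δ f h) := repW_X hU₀ hf fun t => t
  have h2 : RepW (U₀ : Filter ℝ) (fun i => XX η i) (fun δ h => Xd δ η h) := repW_X hU₀ hη fun t => t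
  exact h.st_tendsto' hd U hU (h1.mul h2) (TT_ok hd hU₀ h U hU hf hη)

lemma TT_pf (hd : Deloc) (hU₀ : (U₀ : Filter ℝ) ≤ 𝓝[>] 0) (h : WDat (U₀ : Filter ℝ) E)
    (U : Ultrafilter (ℝ × Finset V)) (hU : (U : Filter (ℝ × Finset V)) ≤ (U₀ : Filter ℝ).curry dom)
    (hf : Cc f) (hf0 : ∀ z, 0 ≤ f z) : PF (TT hd h U hU f) where
  add := fun g k hg hk => by
    unfold TT
    rw [← (h.st hd U hU).L_add _ _ (TT_ok hd hU₀ h U hU hf hg) (TT_ok hd hU₀ h U hU hf hk)]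
    congr 1
    funext i
    rw [WDat.X_add g k hg hk]
    ring
  smul := fun c g hg => by
    unfold TT
    rw [← (h.st hd U hU).L_smul c _ (TT_ok hd hU₀ h U hU hf hg)]
    congr 1
    funext i
    rw [GF.Lat.XX_smul c g i]
    ring
  pos := fun g hg hg0 => h.posi hd hU₀ U hU hf hg hf0 hg0

lemma TT_hm (hd : Deloc) (hU₀ : (U₀ : Filter ℝ) ≤ 𝓝[>] 0) {K : ℝ} {W W' : Set Pl} (hW : IsOpen W)
    (h : EnvDat (U₀ : Filter ℝ) W K E) (U : Ultrafilter (ℝ × Finset V))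
    (hU : (U : Filter (ℝ × Finset V)) ≤ (U₀ : Filter ℝ).curry dom) (hf : Tst W f) (hWW : W' ⊆ W)
    (hfW : ∀ x ∈ W', f x = 0) : Hm (TT hd h.toWDat U hU f) W' := by
  intro u hu
  have h1 := (envOf hd hW h hU₀ U hU).cov_lap (hu.mono hWW) hf
  have h2 : ∫ z, f z * u z = 0 := by
    have h3 : (fun z => f z * u z) = fun _ => 0 := by
      funext z
      by_cases hz : z ∈ tsupport u
      · rw [hfW z (hu.sub hz), zero_mul]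
      · rw [image_eq_zero_of_notMem_tsupport hz, mul_zero]
    rw [h3, integral_zero]
  rw [h2, mul_zero, neg_zero] at h1
  exact h1

/-- **From the environments to the wall.** -/
theorem wall_of_envs (hd : Deloc) : ∃ C₀ : ℝ, 0 < C₀ ∧ ∀ (U₀ : Ultrafilter ℝ), (U₀ : Filter ℝ) ≤ 𝓝[>] 0 →
    ∀ (K : ℝ) (f : Pl → ℝ), (∀ z, 0 ≤ f z) →
    ∀ (P : Finset Pl) (G : Set Pl) (ρ τ R S e : ℝ) (m : ℕ) (W W₀ : Set Pl) (Wp : Pl → Set Pl)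
    (E E₀ : ℝ → (V → ℤ) → ℝ) (Ep : Pl → ℝ → (V → ℤ) → ℝ),
    IsOpen W → IsOpen W₀ → (∀ p ∈ P, IsOpen (Wp p)) → Tst W f → Tst W₀ f → (∀ p ∈ P, Tst (Wp p) f) →
    EnvDat (U₀ : Filter ℝ) W K E → EnvDat (U₀ : Filter ℝ) W₀ K E₀ →
    (∀ p ∈ P, EnvDat (U₀ : Filter ℝ) (Wp p) K (Ep p)) →
    {x | (∃ z ∈ G, eu x z < 4 * R) ∧ ∀ p ∈ P, τ / 2 < eu x p} ⊆ W →
    {x | ∃ z ∈ G, eu x z < 4 * R} ⊆ W₀ →
    (∀ p ∈ P, {x | (∃ z ∈ G, eu x z < 4 * R) ∧ ρ < eu x p} ⊆ Wp p) →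
    (∀ x, (∃ z ∈ G, eu x z < 4 * R) → f x = 0) →
    0 < ρ → 8 * ρ ≤ τ → 8 * τ ≤ R → 0 ≤ S → 0 ≤ e →
    (∀ p ∈ P, ∃ z ∈ G, eu p z ≤ R) →
    (∀ j < m, ∀ z ∈ G, Sh P τ z (R / 8 ^ (j + 1))) →
    (∀ η, Tst {x | (∃ z ∈ G, eu x z < 4 * R) ∧ ∀ p ∈ P, τ / 2 < eu x p} η → (∀ z, 0 ≤ η z) →
      ∀ᶠ δ in (U₀ : Filter ℝ), qt E (fun δ h => Xd δ f h * Xd δ η h) δ ≤
        qt E₀ (fun δ h => Xd δ f h * Xd δ η h) δ) →
    (∀ p ∈ P, ∀ η, Tst {x | (∃ z ∈ G, eu x z < 4 * R) ∧ ∀ p ∈ P, τ / 2 < eu x p} η → (∀ z, 0 ≤ η z) →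
      ∀ᶠ δ in (U₀ : Filter ℝ), qt E (fun δ h => Xd δ f h * Xd δ η h) δ ≤
        qt (Ep p) (fun δ h => Xd δ f h * Xd δ η h) δ) →
    (∀ p ∈ P, ∀ η, Tst {x | (∃ z ∈ G, eu x z < 4 * R) ∧ ρ < eu x p} η → (∀ z, 0 ≤ η z) →
      ∀ᶠ δ in (U₀ : Filter ℝ), qt (Ep p) (fun δ h => Xd δ f h * Xd δ η h) δ ≤
        qt E₀ (fun δ h => Xd δ f h * Xd δ η h) δ) →
    (∀ η, Cc η → (∀ z, 0 ≤ η z ∧ η z ≤ 1) → (∀ z, η z ≠ 0 → ∃ y ∈ G, eu z y < 4 * R) →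
      ∀ᶠ δ in (U₀ : Filter ℝ), qt E₀ (fun δ h => Xd δ f h * Xd δ η h) δ ≤ S * R ^ 2) →
    (∀ p ∈ P, ∀ η, Cc η → (∀ z, 0 ≤ η z ∧ η z ≤ 1) → (∀ z, η z ≠ 0 → ρ < eu z p ∧ eu z p < 8 * ρ) →
      ∀ᶠ δ in (U₀ : Filter ℝ), qt (Ep p) (fun δ h => Xd δ f h * Xd δ η h) δ ≤ e * ρ ^ 2) →
    ∀ η, Tst {x | (∃ z ∈ G, eu x z < R / 8 ^ m) ∧ ∀ p ∈ P, τ < eu x p} η → (∀ z, 0 ≤ η z) →
      ∀ e' > 0, ∀ᶠ δ in (U₀ : Filter ℝ), qt E (fun δ h => Xd δ f h * Xd δ η h) δ ≤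
        C₀ * ((39 / 40) ^ m * S + e + S * Real.log (τ / ρ) / Real.log (R / ρ)) * (∫ z, η z) + e' := by
  obtain ⟨C₀, hC₀, hww⟩ := wild_wall_on
  refine ⟨C₀, hC₀, ?_⟩
  intro U₀ hU₀ K f hf0 P G ρ τ R S e m W W₀ Wp E E₀ Ep oW oW₀ oWp tf tf₀ tfp hE hE₀ hEp iW iW₀ iWp hfG
    hρ hρτ hτR hS he hP hsh cE0 cEp cp0 b0 bp χ hχ hχ0 e' he'
  classical
  have := curry_neBot (U₀ : Filter ℝ)
  set U : Ultrafilter (ℝ × Finset V) := Ultrafilter.of ((U₀ : Filter ℝ).curry dom) with hUdef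
  have hU : (U : Filter (ℝ × Finset V)) ≤ (U₀ : Filter ℝ).curry dom := Ultrafilter.of_le _
  set T := TT hd hE.toWDat U hU f with hT
  set T₀ := TT hd hE₀.toWDat U hU f with hT₀
  set Tp : Pl → (Pl → ℝ) → ℝ := fun p => if h : p ∈ P then TT hd (hEp p h).toWDat U hU f else T₀ with hTp
  have eTp : ∀ p (h : p ∈ P), Tp p = TT hd (hEp p h).toWDat U hU f := fun p h => by
    rw [hTp]
    exact dif_pos h
  have lT : ∀ η, Cc η → Tendsto (fun δ => qt E (fun δ h => Xd δ f h * Xd δ η h) δ) U₀ (𝓝 (T η)) :=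
    fun η hη => TT_lim hd hU₀ hE.toWDat U hU tf.toCc hη
  have lT₀ : ∀ η, Cc η → Tendsto (fun δ => qt E₀ (fun δ h => Xd δ f h * Xd δ η h) δ) U₀ (𝓝 (T₀ η)) :=
    fun η hη => TT_lim hd hU₀ hE₀.toWDat U hU tf.toCc hη
  have lTp : ∀ p ∈ P, ∀ η, Cc η →
      Tendsto (fun δ => qt (Ep p) (fun δ h => Xd δ f h * Xd δ η h) δ) U₀ (𝓝 (Tp p η)) := by
    intro p hp η hη
    rw [eTp p hp]
    exact TT_lim hd hU₀ (hEp p hp).toWDat U hU tf.toCc hη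
  have hmain := hww P G ρ τ R S e m T T₀ Tp (TT_pf hd hU₀ hE.toWDat U hU tf.toCc hf0)
    (TT_pf hd hU₀ hE₀.toWDat U hU tf.toCc hf0) (fun p hp => by
      rw [eTp p hp]
      exact TT_pf hd hU₀ (hEp p hp).toWDat U hU tf.toCc hf0) hρ hρτ hτR hS he hP hsh
    (TT_hm hd hU₀ oW hE U hU tf iW fun x hx => hfG x hx.1)
    (TT_hm hd hU₀ oW₀ hE₀ U hU tf₀ iW₀ fun x hx => hfG x hx) (fun p hp => by
      rw [eTp p hp]
      exact TT_hm hd hU₀ (oWp p hp) (hEp p hp) U hU (tfp p hp) (iWp p hp) fun x hx => hfG x hx.1)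
    (fun η hη h0 => le_of_tendsto_of_tendsto (lT η hη.toCc) (lT₀ η hη.toCc) (cE0 η hη h0))
    (fun p hp η hη h0 => le_of_tendsto_of_tendsto (lT η hη.toCc) (lTp p hp η hη.toCc) (cEp p hp η hη h0))
    (fun p hp η hη h0 => le_of_tendsto_of_tendsto (lTp p hp η hη.toCc) (lT₀ η hη.toCc) (cp0 p hp η hη h0))
    (fun η hη h1 h2 => le_of_tendsto (lT₀ η hη) (b0 η hη h1 h2))
    (fun p hp η hη h1 h2 => le_of_tendsto (lTp p hp η hη) (bp p hp η hη h1 h2)) χ hχ hχ0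
  have h3 := (lT χ hχ.toCc).eventually (gt_mem_nhds (show T χ < T χ + e' by linarith))
  filter_upwards [h3] with δ h4
  linarith

end DV.WB
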