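import Pool.Agent.Helper25.WB.Sg

/-!
# Project DV, UP half, piece (C1): blocks with a small inner radius are likely, uniformly in the centre
-/

open Finset Filter Topology MeasureTheory

namespace DV.WB

open RP4 (V Adj BdryPar Om dom avg mu Loc Deloc dist1 cnt mass clm Conn cell)
open GF (Pl Cc)
open GF.Lat (Xd win)

/-- a pin and a local event -/
lemma PR_pin {δ : ℝ} (hδ : 0 < δ) {y : Pl} {r s : ℝ} (hr : δ ≤ r) (hrs : r + δ < s) {S : Finset V}
    {E : (V → ℤ) → Prop} (hE : ∀ g g' : V → ℤ, (∀ v ∈ S, g v = g' v) → (E g ↔ E g')) {t : Finset V}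
    (ht : Is δ y s ⊆ t) (hS : S ⊆ t) : PR t (ic fun g => Bk 0 δ y r s g ∧ E g) := by
  have h1 : PR t (fun g => ic (Bk 0 δ y r s) g * ic E g) :=
    PR_bk hδ hr hrs 0 ht fun g g' h => ic_congr (hE g g' fun v hv => h v (hS hv))
  exact h1.congr fun g => (ic_and _ _ g).symm

/-- **(C1)** the rare event, uniformly in the centre -/
theorem rare_unif (hd : Deloc) (hF : FlatC) (hZ : ZoneC) (y : Pl) {r s : ℝ} (hr : 0 < r) (hrs : r < s)
    {K : Set Pl} (hK : IsCompact K) {R : ℝ} (hR : 0 < R) (hKy : ∀ z ∈ K, s + R < dist z y) {ε : ℝ}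
    (hε : 0 < ε) : ∃ t₀ > 0, ∀ t, 0 < t → t ≤ t₀ → ∀ᶠ δ in 𝓝[>] (0 : ℝ), ∀ z ∈ K,
      ∀ (S : Finset V) (E : (V → ℤ) → Prop), (∀ v ∈ S, s ≤ dist (pt δ v) y) → Dec E →
      (∀ g g' : V → ℤ, (∀ v ∈ S, g v = g' v) → (E g ↔ E g')) →
      Mp (fun g => Bk 0 δ y r s g ∧ E g ∧ ¬ Bk 0 δ z t R g) ≤ ε * Mp (fun g => Bk 0 δ y r s g ∧ E g) := by
  classical
  have h1 : ∀ z, ∃ t₀ > 0, t₀ ≤ R / 8 ∧ (z ∈ K → ∀ᶠ δ in 𝓝[>] (0 : ℝ), ∀ (S : Finset V) (E : (V → ℤ) → Prop),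
      (∀ v ∈ S, s ≤ dist (pt δ v) y) → Dec E →
      (∀ g g' : V → ℤ, (∀ v ∈ S, g v = g' v) → (E g ↔ E g')) →
      Mp (fun g => Bk 0 δ y r s g ∧ E g ∧ ¬ Bk 0 δ z t₀ (R / 2) g) ≤
        ε * Mp (fun g => Bk 0 δ y r s g ∧ E g)) := by
    intro z
    by_cases hz : z ∈ K
    · obtain ⟨t₀, ht₀, h⟩ := bar_rare hd hF hZ y z hr hrs (show 0 < R / 2 by positivity)
        (by have := hKy z hz; linarith) hε
      exact ⟨min t₀ (R / 8), by positivity, min_le_right _ _, fun _ => h _ (by positivity) (min_le_left _ _)⟩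
    · exact ⟨R / 8, by positivity, le_rfl, fun h => absurd h hz⟩
  choose T hT0 hT8 hT using h1
  obtain ⟨J, hJK, hJ⟩ := hK.elim_nhds_subcover (fun z => Metric.ball z (min (T z / 2) (R / 2)))
    (fun z _ => Metric.ball_mem_nhds z (lt_min (by have := hT0 z; positivity) (by positivity)))
  obtain ⟨t₀, ht₀, hmin⟩ : ∃ t₀ > 0, ∀ z ∈ J, t₀ ≤ T z / 2 := by
    rcases J.eq_empty_or_nonempty with h | h
    · exact ⟨1, one_pos, fun z hz => by rw [h] at hz; exact absurd hz (Finset.notMem_empty z)⟩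
    · obtain ⟨z, hz, hz'⟩ := J.exists_min_image T h
      exact ⟨T z / 2, by have := hT0 z; positivity, fun w hw => by have := hz' w hw; linarith⟩
  refine ⟨min t₀ (R / 2), by positivity, fun t ht htt => ?_⟩
  have htt₀ : t ≤ t₀ := htt.trans (min_le_left _ _)
  have htR : t ≤ R / 2 := htt.trans (min_le_right _ _)
  have hev : ∀ c : ℝ, 0 < c → ∀ᶠ δ in 𝓝[>] (0 : ℝ), δ < c := fun c hc =>
    nhdsWithin_le_nhds (Iio_mem_nhds hc)
  have hall : ∀ᶠ δ in 𝓝[>] (0 : ℝ), ∀ z ∈ J, ∀ (S : Finset V) (E : (V → ℤ) → Prop),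
      (∀ v ∈ S, s ≤ dist (pt δ v) y) → Dec E →
      (∀ g g' : V → ℤ, (∀ v ∈ S, g v = g' v) → (E g ↔ E g')) →
      Mp (fun g => Bk 0 δ y r s g ∧ E g ∧ ¬ Bk 0 δ z (T z) (R / 2) g) ≤
        ε * Mp (fun g => Bk 0 δ y r s g ∧ E g) := by
    rw [Filter.eventually_all_finset]
    exact fun z hz => hT z (hJK z hz)
  filter_upwards [hall, self_mem_nhdsWithin, hev r hr, hev (s - r) (by linarith),
    hev (R / 8) (by positivity)] with δ h2 hδ d1 d2 d3 z hz S E hS hE hEl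
  have hδ0 : (0 : ℝ) < δ := hδ
  obtain ⟨w, hw, hzw⟩ := Set.mem_iUnion₂.1 (hJ hz)
  rw [Metric.mem_ball, lt_min_iff] at hzw
  have hsub : ∀ g, Bk 0 δ w (T w) (R / 2) g → Bk 0 δ z t R g := by
    intro g hg
    rw [bk_zero] at hg ⊢
    refine hg.mono (fun v hv => ?_) fun v hv => ?_
    · have h3 : dist (pt δ v) z ≤ t := hv
      show dist (pt δ v) w ≤ T w
      have h4 := dist_triangle (pt δ v) z w
      have h5 := hmin w hw
      linarith [hzw.1]
    · have h3 : R ≤ dist (pt δ v) z := hv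
      show R / 2 ≤ dist (pt δ v) w
      have h4 := dist_triangle (pt δ v) w z
      rw [dist_comm w z] at h4
      linarith [hzw.2]
  refine le_trans ?_ (h2 w hw S E hS hE hEl)
  set N : Finset V := Is δ y s ∪ S ∪ Is δ z R ∪ Is δ w (R / 2) with hN
  have hN1 : Is δ y s ⊆ N := fun v hv => by
    simp only [hN, Finset.mem_union]
    tauto
  have hN2 : S ⊆ N := fun v hv => by
    simp only [hN, Finset.mem_union]
    tauto
  have hN3 : Is δ z R ⊆ N := fun v hv => by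
    simp only [hN, Finset.mem_union]
    tauto
  have hN4 : Is δ w (R / 2) ⊆ N := fun v hv => by
    simp only [hN, Finset.mem_union]
    tauto
  have hw8 := hT8 w
  unfold Mp
  refine Mr_mono hd (s := N) (t := N)
    (PR_pin hδ0 d1.le (by linarith) (S := N) (fun g g' h => ?_) hN1 (Finset.Subset.refl _))
    (PR_pin hδ0 d1.le (by linarith) (S := N) (fun g g' h => ?_) hN1 (Finset.Subset.refl _)) fun g => ?_
  · refine and_congr (hEl g g' fun v hv => h v (hN2 hv)) (not_congr (bk_loc hδ0 (by linarith) fun v hv => ?_))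
    exact h v (hN3 ((mem_Is hδ0).2 hv.le))
  · refine and_congr (hEl g g' fun v hv => h v (hN2 hv)) (not_congr (bk_loc hδ0 (by linarith) fun v hv => ?_))
    exact h v (hN4 ((mem_Is hδ0).2 hv.le))
  · exact ic_mono fun h => ⟨h.1, h.2.1, fun h3 => h.2.2 (hsub g h3)⟩

end DV.WB
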