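import Pool.Agent.Helper94.BR.Ra
import Pool.Agent.Helper94.BR.Ms1
import Pool.Agent.Helper33.DV.Ev4

/-!
# Project DV, UP half, piece (C): signs and rare events

The covariance of a field far away and of a field near the point `p` in the floating measure with a decreasing weight is small.
-/

open Finset Filter Topology MeasureTheory

namespace DV.WB

open RP4 (V Adj BdryPar Om dom avg mu Loc Deloc dist1 cnt mass clm Conn cell)
open GF (Pl Cc)
open GF.Lat (Xd win)

lemma clm_two {g : V → ℤ} {x y : V} (h : ¬ Conn g x y) : clm ![x, y] g = 0 := by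
  classical
  unfold clm
  rw [if_neg]
  rintro ⟨h0, h1⟩
  have hx : g x ≠ 0 := h0 0
  have hxx : Conn g x x := ⟨hx, Relation.ReflTransGen.refl⟩
  have h2 := h1 0
  have h3 : (Finset.univ.filter fun j : Fin 2 => Conn g (![x, y] 0) (![x, y] j)) = {0} := by
    ext j
    fin_cases j
    · simp [hxx]
    · simp [h]
  rw [h3, Finset.card_singleton] at h2
  exact absurd h2 (by decide)

/-- the product of the fields of two separated sets has mean zero, finite volume -/
lemma sum_sep {E : (V → ℤ) → Prop} (habs : ∀ g, E (absf g) ↔ E g) (D t : Finset V) {w w' : V → ℝ}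
    (hsep : ∀ g, E g → ∀ x ∈ t, w x ≠ 0 → ∀ y ∈ t, w' y ≠ 0 → ¬ Conn g x y) :
    ∑ g ∈ Om D, ic E g * ((∑ x ∈ t, w x * (g x : ℝ)) * ∑ y ∈ t, w' y * (g y : ℝ)) = 0 := by
  have h1 : ∀ g : V → ℤ, ic E g * ((∑ x ∈ t, w x * (g x : ℝ)) * ∑ y ∈ t, w' y * (g y : ℝ)) =
      ∑ x ∈ t, ∑ y ∈ t, (w x * w' y) * (ic E g * ∏ i : Fin 2, (g (![x, y] i) : ℝ)) := by
    intro g
    rw [Finset.sum_mul_sum, Finset.mul_sum]
    refine Finset.sum_congr rfl fun x _ => ?_
    rw [Finset.mul_sum]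
    refine Finset.sum_congr rfl fun y _ => ?_
    rw [Fin.prod_univ_two]
    simp only [Matrix.cons_val_zero, Matrix.cons_val_one]
    ring
  rw [Finset.sum_congr rfl fun g _ => h1 g, Finset.sum_comm]
  refine Finset.sum_eq_zero fun x hx => ?_
  rw [Finset.sum_comm]
  refine Finset.sum_eq_zero fun y hy => ?_
  rw [← Finset.mul_sum, om_clm habs]
  by_cases h2 : w x = 0
  · rw [h2, zero_mul, zero_mul]
  by_cases h3 : w' y = 0
  · rw [h3, mul_zero, zero_mul]
  have h4 : ∑ g ∈ Om D, ic E g * clm ![x, y] g = 0 := by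
    refine Finset.sum_eq_zero fun g _ => ?_
    by_cases h5 : E g
    · rw [clm_two (hsep g h5 x hx h2 y hy h3), mul_zero]
    · rw [ic_neg h5, zero_mul]
  rw [h4, mul_zero]

/-- the product of the fields of two separated sets has mean zero -/
lemma Mr_sep (hd : Deloc) {s t : Finset V} (hts : t ⊆ s) {E : (V → ℤ) → Prop} (hE : PR s (ic E))
    (habs : ∀ g, E (absf g) ↔ E g) {w w' : V → ℝ}
    (hsep : ∀ g, E g → ∀ x ∈ t, w x ≠ 0 → ∀ y ∈ t, w' y ≠ 0 → ¬ Conn g x y) :
    Mr (fun g => ic E g * ((∑ x ∈ t, w x * (g x : ℝ)) * ∑ y ∈ t, w' y * (g y : ℝ))) = 0 := by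
  have hP : PR s (fun g => ic E g * ((∑ x ∈ t, w x * (g x : ℝ)) * ∑ y ∈ t, w' y * (g y : ℝ))) :=
    hE.mul fun g g' hg => by
      congr 1
      · exact Finset.sum_congr rfl fun x hx => by rw [hg x (hts hx)]
      · exact Finset.sum_congr rfl fun x hx => by rw [hg x (hts hx)]
  have h1 := Mr_le_of hd hP hP (c := 1) (d := 0) (Eventually.of_forall fun D => by
    rw [sum_sep habs D t hsep, mul_zero, mul_zero])
  have h2 := Mr_le_of hd hP hP (c := 0) (d := 1) (Eventually.of_forall fun D => by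
    rw [sum_sep habs D t hsep, mul_zero, mul_zero])
  linarith

/-- Cauchy-Schwarz -/
lemma Mr_cs (hd : Deloc) {s : Finset V} {E : (V → ℤ) → Prop} (hE : PR s (ic E)) {A B : (V → ℤ) → ℝ}
    (hA : ∀ g g' : V → ℤ, (∀ x ∈ s, g x = g' x) → A g = A g')
    (hB : ∀ g g' : V → ℤ, (∀ x ∈ s, g x = g' x) → B g = B g') :
    Mr (fun g => ic E g * (A g * B g)) * Mr (fun g => ic E g * (A g * B g)) ≤
      Mr (fun g => ic E g * A g ^ 2) * Mr (fun g => ic E g * B g ^ 2) := by
  refine Mr_mul_le_of hd (hE.mul fun g g' hg => by rw [hA g g' hg, hB g g' hg])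
    (hE.mul fun g g' hg => by rw [hA g g' hg, hB g g' hg]) (hE.mul fun g g' hg => by rw [hA g g' hg])
    (hE.mul fun g g' hg => by rw [hB g g' hg]) (Eventually.of_forall fun D => ?_)
  have h1 := Finset.sum_mul_sq_le_sq_mul_sq (Om D) (fun g => ic E g * A g) (fun g => ic E g * B g)
  have hi : ∀ g, ic E g * ic E g = ic E g := by
    intro g
    unfold ic
    split_ifs <;> simp
  have e1 : ∀ g : V → ℤ, ic E g * A g * (ic E g * B g) = ic E g * (A g * B g) := by
    intro g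
    rw [show ic E g * A g * (ic E g * B g) = (ic E g * ic E g) * (A g * B g) by ring, hi]
  have e2 : ∀ F : (V → ℤ) → ℝ, ∀ g : V → ℤ, (ic E g * F g) ^ 2 = ic E g * F g ^ 2 := by
    intro F g
    rw [show (ic E g * F g) ^ 2 = (ic E g * ic E g) * F g ^ 2 by ring, hi]
  rw [Finset.sum_congr rfl fun g _ => e1 g, Finset.sum_congr rfl fun g _ => e2 A g,
    Finset.sum_congr rfl fun g _ => e2 B g, sq] at h1
  exact h1

/-- Hoelder for four, four, two -/
lemma Mr_hoelder (hd : Deloc) {s : Finset V} {E : (V → ℤ) → Prop} (hE : PR s (ic E)) {A B : (V → ℤ) → ℝ}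
    (hA : ∀ g g' : V → ℤ, (∀ x ∈ s, g x = g' x) → A g = A g')
    (hB : ∀ g g' : V → ℤ, (∀ x ∈ s, g x = g' x) → B g = B g') {Q : (V → ℤ) → Prop}
    (hQ : ∀ g g' : V → ℤ, (∀ x ∈ s, g x = g' x) → (Q g ↔ Q g')) {a b q : ℝ} (ha : 0 ≤ a) (hb : 0 ≤ b)
    (hq : 0 ≤ q)
    (h1 : Mr (fun g => ic E g * A g ^ 4) ≤ a * Mr (ic E)) (h2 : Mr (fun g => ic E g * B g ^ 4) ≤ b * Mr (ic E))
    (h3 : Mr (fun g => ic E g * ic Q g) ≤ q * Mr (ic E)) :
    Mr (fun g => ic E g * (A g * B g * ic Q g)) ≤ Real.sqrt (Real.sqrt (a * b) * q) * Mr (ic E) := by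
  have hm : 0 ≤ Mr (ic E) := Mr_nonneg hd hE fun g => ic_nonneg _ _
  have hQi : ∀ g g' : V → ℤ, (∀ x ∈ s, g x = g' x) → ic Q g = ic Q g' := fun g g' h => ic_congr (hQ g g' h)
  have c1 := Mr_cs hd hE (A := fun g => A g * B g) (B := ic Q) (fun g g' h => by rw [hA g g' h, hB g g' h]) hQi
  have c2 := Mr_cs hd hE (A := fun g => A g ^ 2) (B := fun g => B g ^ 2) (fun g g' h => by rw [hA g g' h])
    (fun g g' h => by rw [hB g g' h])
  have e1 : ∀ g, ic Q g ^ 2 = ic Q g := by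
    intro g
    unfold ic
    split_ifs <;> simp
  have e2 : (fun g => ic E g * ic Q g ^ 2) = fun g => ic E g * ic Q g := by
    funext g
    rw [e1]
  have e3 : (fun g => ic E g * (A g * B g) ^ 2) = fun g => ic E g * (A g ^ 2 * B g ^ 2) := by
    funext g
    rw [mul_pow]
  have e4 : ∀ F : (V → ℤ) → ℝ, (fun g => ic E g * (F g ^ 2) ^ 2) = fun g => ic E g * F g ^ 4 := by
    intro F
    funext g
    ring
  rw [e2, e3] at c1
  rw [e4 A, e4 B] at c2
  set x := Mr (fun g => ic E g * (A g * B g * ic Q g)) with hx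
  set y := Mr (fun g => ic E g * (A g ^ 2 * B g ^ 2)) with hy
  set m := Mr (ic E) with hmdef
  have hy0 : 0 ≤ y := Mr_nonneg hd (hE.mul fun g g' h => by rw [hA g g' h, hB g g' h]) fun g =>
    mul_nonneg (ic_nonneg _ _) (by positivity)
  have hA4 : 0 ≤ Mr (fun g => ic E g * A g ^ 4) := Mr_nonneg hd (hE.mul fun g g' h => by rw [hA g g' h])
    fun g => mul_nonneg (ic_nonneg _ _) (by positivity)
  have hB4 : 0 ≤ Mr (fun g => ic E g * B g ^ 4) := Mr_nonneg hd (hE.mul fun g g' h => by rw [hB g g' h])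
    fun g => mul_nonneg (ic_nonneg _ _) (by positivity)
  have hy2 : y ≤ Real.sqrt (a * b) * m := by
    have h5 : y * y ≤ (a * m) * (b * m) := c2.trans (mul_le_mul h1 h2 hB4 (by positivity))
    have h6 : y ^ 2 ≤ (Real.sqrt (a * b) * m) ^ 2 := by
      rw [mul_pow, Real.sq_sqrt (by positivity)]
      nlinarith
    exact le_of_sq_le_sq h6 (by positivity)
  have hQ0 : 0 ≤ Mr (fun g => ic E g * ic Q g) := Mr_nonneg hd (hE.mul hQi) fun g =>
    mul_nonneg (ic_nonneg _ _) (ic_nonneg _ _)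
  have h7 : x * x ≤ (Real.sqrt (a * b) * m) * (q * m) := c1.trans (mul_le_mul hy2 h3 hQ0 (by positivity))
  have h8 : x ^ 2 ≤ (Real.sqrt (Real.sqrt (a * b) * q) * m) ^ 2 := by
    rw [mul_pow, Real.sq_sqrt (by positivity)]
    nlinarith
  exact le_of_sq_le_sq h8 (by positivity)

end DV.WB
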